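import Pool.Agent.TH742.PR.Nil

set_option autoImplicit false

/-!
A reduced ring is a subdirect product of domains; application to condition (P).
-/

namespace Pool.Agent.TH742.PR

variable {R : Type} [Ring R]

lemma zero_comm [IsReduced R] {a b : R} (h : a * b = 0) : b * a = 0 := by
  refine IsReduced.eq_zero _ ⟨2, ?_⟩
  rw [pow_two]
  calc b * a * (b * a) = b * (a * b) * a := by noncomm_ring
    _ = 0 := by rw [h]; simp

lemma ins [IsReduced R] {a b : R} (h : a * b = 0) (r : R) : a * r * b = 0 := by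
  refine IsReduced.eq_zero _ ⟨2, ?_⟩
  rw [pow_two]
  calc a * r * b * (a * r * b) = a * r * (b * a) * (r * b) := by noncomm_ring
    _ = 0 := by rw [zero_comm h]; simp

lemma swap [IsReduced R] {p a b q : R} (h : p * a * b * q = 0) : p * b * a * q = 0 := by
  have h1 : q * (p * a * b) = 0 := zero_comm h
  have h2 : (q * p * a) * b = 0 := by rw [← h1]; noncomm_ring
  have h3 : (q * p) * (a * (q * p) * b) = 0 := by
    have := ins h2 (q * p)
    rw [← this]; noncomm_ring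
  have h4 := ins h3 b
  refine IsReduced.eq_zero _ ⟨3, ?_⟩
  calc (p * b * a * q) ^ 3 = (p * b * a) * ((q * p) * b * (a * (q * p) * b)) * (a * q) := by
        rw [pow_succ, pow_two]; noncomm_ring
    _ = 0 := by rw [h4]; simp

lemma red_pow [IsReduced R] {y s : R} : ∀ k : ℕ, y ^ (k + 1) * s = 0 → y * s = 0 := by
  intro k
  induction k with
  | zero => intro h; simpa using h
  | succ k ih =>
    intro h
    apply ih
    have h1 : y * (y ^ (k + 1) * s) = 0 := by
      rw [← mul_assoc, ← pow_succ']; exact h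
    have h2 := ins h1 (y ^ k * s)
    refine IsReduced.eq_zero _ ⟨2, ?_⟩
    rw [pow_two]
    calc y ^ (k + 1) * s * (y ^ (k + 1) * s) = y * (y ^ k * s) * (y ^ (k + 1) * s) := by
          rw [pow_succ' y k]; noncomm_ring
      _ = 0 := h2

lemma word [IsReduced R] (S : Submonoid R) (y : R) {w : R}
    (hw : w ∈ Submonoid.closure ((S : Set R) ∪ {y})) :
    ∃ (k : ℕ) (s : R), s ∈ S ∧ ∀ p q : R, p * w * q = 0 → p * (y ^ k * s) * q = 0 := by
  induction hw using Submonoid.closure_induction with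
  | mem w hw =>
    rcases hw with hw | hw
    · exact ⟨0, w, hw, fun p q h => by rwa [pow_zero, one_mul]⟩
    · rw [Set.mem_singleton_iff] at hw
      subst hw
      exact ⟨1, 1, S.one_mem, fun p q h => by rwa [pow_one, mul_one]⟩
  | one => exact ⟨0, 1, S.one_mem, fun p q h => by rwa [pow_zero, one_mul]⟩
  | mul w₁ w₂ _ _ h₁ h₂ =>
    obtain ⟨k₁, s₁, hs₁, h₁⟩ := h₁
    obtain ⟨k₂, s₂, hs₂, h₂⟩ := h₂
    refine ⟨k₁ + k₂, s₁ * s₂, S.mul_mem hs₁ hs₂, fun p q h => ?_⟩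
    have e1 : p * w₁ * (w₂ * q) = 0 := by rw [← h]; noncomm_ring
    have e2 := h₁ _ _ e1
    have e3 : (p * (y ^ k₁ * s₁)) * w₂ * q = 0 := by rw [← e2]; noncomm_ring
    have e4 := h₂ _ _ e3
    have e5 : (p * y ^ k₁) * s₁ * y ^ k₂ * (s₂ * q) = 0 := by rw [← e4]; noncomm_ring
    have e6 := swap e5
    rw [← e6, pow_add]
    noncomm_ring

/-- A reduced ring has, for each `x ≠ 0`, a domain as a quotient in which `x` is not zero. -/
lemma exists_domain [IsReduced R] {x : R} (hx : x ≠ 0) :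
    ∃ I : TwoSidedIdeal R, x ∉ I ∧ (1 : R) ∉ I ∧ ∀ a b : R, a * b ∈ I → a ∈ I ∨ b ∈ I := by
  obtain ⟨S, hS, hmax⟩ := zorn_le_nonempty₀ {S : Submonoid R | x ∈ S ∧ (0 : R) ∉ S} (by
    intro c hc hchain S₀ hS₀
    refine ⟨sSup c, ⟨?_, ?_⟩, fun z hz => le_sSup hz⟩
    · exact (le_sSup hS₀) (hc hS₀).1
    · rw [Submonoid.mem_sSup_of_directedOn ⟨S₀, hS₀⟩ hchain.directedOn]
      rintro ⟨T, hT, h0⟩
      exact (hc hT).2 h0) (Submonoid.powers x) (by
    refine ⟨Submonoid.mem_powers x, ?_⟩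
    rintro ⟨n, hn⟩
    exact hx (IsReduced.eq_zero x ⟨n, hn⟩))
  obtain ⟨⟨hxS, h0S⟩, hmax⟩ := hmax
  have key : ∀ y : R, y ∈ S ∨ ∃ s ∈ S, y * s = 0 := by
    intro y
    by_contra hcon
    push Not at hcon
    obtain ⟨hy, hys⟩ := hcon
    have hle : S ≤ Submonoid.closure ((S : Set R) ∪ {y}) := fun z hz =>
      Submonoid.subset_closure (Or.inl hz)
    have h0 : (0 : R) ∈ Submonoid.closure ((S : Set R) ∪ {y}) := by
      by_contra h0
      exact hy (hmax ⟨hle hxS, h0⟩ hle (Submonoid.subset_closure (Or.inr rfl)))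
    obtain ⟨k, s, hs, h⟩ := word S y h0
    have h1 : y ^ k * s = 0 := by
      have := h 1 1 (by simp)
      simpa using this
    cases k with
    | zero =>
      rw [pow_zero, one_mul] at h1
      exact h0S (h1 ▸ hs)
    | succ k => exact hys s hs (red_pow k h1)
  refine ⟨TwoSidedIdeal.mk' {y | ∃ s ∈ S, y * s = 0} ⟨1, S.one_mem, by simp⟩ ?_ ?_ ?_ ?_, ?_, ?_, ?_⟩
  · rintro y z ⟨s, hs, h1⟩ ⟨t, ht, h2⟩
    refine ⟨s * t, S.mul_mem hs ht, ?_⟩
    have h3 := ins h2 s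
    rw [add_mul, ← mul_assoc, h1, zero_mul, zero_add, ← mul_assoc, h3]
  · rintro y ⟨s, hs, h1⟩
    exact ⟨s, hs, by rw [neg_mul, h1, neg_zero]⟩
  · rintro r y ⟨s, hs, h1⟩
    exact ⟨s, hs, by rw [mul_assoc, h1, mul_zero]⟩
  · rintro y r ⟨s, hs, h1⟩
    exact ⟨s, hs, ins h1 r⟩
  · rw [TwoSidedIdeal.mem_mk']
    rintro ⟨s, hs, h1⟩
    exact h0S (h1 ▸ S.mul_mem hxS hs)
  · rw [TwoSidedIdeal.mem_mk']
    rintro ⟨s, hs, h1⟩
    rw [one_mul] at h1
    exact h0S (h1 ▸ hs)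
  · intro a b hab
    rw [TwoSidedIdeal.mem_mk'] at hab
    obtain ⟨s, hs, h1⟩ := hab
    rw [TwoSidedIdeal.mem_mk', TwoSidedIdeal.mem_mk']
    by_contra hcon
    rw [not_or] at hcon
    have ha : a ∈ S := (key a).resolve_right hcon.1
    have hb : b ∈ S := (key b).resolve_right hcon.2
    exact h0S (h1 ▸ S.mul_mem (S.mul_mem ha hb) hs)

lemma CondP.of_surjective {D : Type} [Ring D] (hP : CondP R) (φ : R →+* D)
    (hφ : Function.Surjective φ) : CondP D := by
  intro x y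
  obtain ⟨a, rfl⟩ := hφ x
  obtain ⟨b, rfl⟩ := hφ y
  obtain ⟨n, hn, h⟩ := hP a b
  exact ⟨n, hn, by rw [← map_mul, ← map_pow, h, map_mul, map_pow, map_pow]⟩

lemma quot_zero (I : TwoSidedIdeal R) (x : R) :
    (x : I.ringCon.Quotient) = 0 ↔ x ∈ I := by
  rw [TwoSidedIdeal.mem_iff]
  exact I.ringCon.eq (a := x) (b := 0)

lemma domain_of_reduced [IsReduced R] (hP : CondP R) {x : R} (hx : x ≠ 0) :
    ∃ (D : Type) (_ : Ring D) (_ : IsDomain D) (φ : R →+* D), Function.Surjective φ ∧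
      CondP D ∧ φ x ≠ 0 := by
  obtain ⟨I, h1, h2, h3⟩ := exists_domain hx
  have hnt : Nontrivial I.ringCon.Quotient := ⟨⟨1, 0, fun h => h2 ((quot_zero I 1).mp h)⟩⟩
  have hnz : NoZeroDivisors I.ringCon.Quotient := ⟨by
    intro a b hab
    obtain ⟨a, rfl⟩ := RingCon.mk'_surjective I.ringCon a
    obtain ⟨b, rfl⟩ := RingCon.mk'_surjective I.ringCon b
    rw [← map_mul] at hab
    exact (h3 a b ((quot_zero I (a * b)).mp hab)).imp (quot_zero I a).mpr (quot_zero I b).mpr⟩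
  have hdom : IsDomain I.ringCon.Quotient := NoZeroDivisors.to_isDomain _
  refine ⟨I.ringCon.Quotient, inferInstance, hdom, I.ringCon.mk', RingCon.mk'_surjective _, ?_, ?_⟩
  · exact hP.of_surjective I.ringCon.mk' (RingCon.mk'_surjective _)
  · intro h
    exact h1 ((quot_zero I x).mp h)

/-- The nilpotent elements of a ring with (P) form a two-sided ideal, and modulo this ideal the
ring is a subdirect product of domains with (P). -/
theorem main (hP : CondP R) : ∃ I : TwoSidedIdeal R, (∀ x, x ∈ I ↔ IsNilpotent x) ∧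
    ∀ x, x ∉ I → ∃ (D : Type) (_ : Ring D) (_ : IsDomain D) (φ : R →+* D),
      Function.Surjective φ ∧ CondP D ∧ φ x ≠ 0 := by
  refine ⟨nilIdeal hP, mem_nilIdeal hP, fun x hx => ?_⟩
  set Q := (nilIdeal hP).ringCon.Quotient with hQ
  have hred : IsReduced Q := ⟨by
    rintro z ⟨n, hn⟩
    obtain ⟨r, rfl⟩ := RingCon.mk'_surjective (nilIdeal hP).ringCon z
    rw [← map_pow] at hn
    obtain ⟨m, hm⟩ := (mem_nilIdeal hP _).mp ((quot_zero _ (r ^ n)).mp hn)
    exact (quot_zero _ r).mpr ((mem_nilIdeal hP r).mpr ⟨n * m, by rw [pow_mul, hm]⟩)⟩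
  have hPQ : CondP Q := hP.of_surjective (nilIdeal hP).ringCon.mk' (RingCon.mk'_surjective _)
  have hx0 : ((nilIdeal hP).ringCon.mk' x : Q) ≠ 0 := fun h => hx ((quot_zero _ x).mp h)
  obtain ⟨D, i1, i2, φ, h1, h2, h3⟩ := domain_of_reduced hPQ hx0
  exact ⟨D, i1, i2, φ.comp (nilIdeal hP).ringCon.mk', h1.comp (RingCon.mk'_surjective _), h2, h3⟩

end Pool.Agent.TH742.PR
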