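import Mathlib

set_option autoImplicit false

/-!
Rings with identity in which for all `x, y` some `n ≥ 2` satisfies `(x y)^n = x^n y^n`: the
nilpotent elements form a two-sided ideal.
-/

namespace Pool.Agent.TH742.PR

open Polynomial

variable {R : Type} [Ring R]

/-- Condition (P) for a ring with identity. -/
def CondP (R : Type) [Ring R] : Prop := ∀ x y : R, ∃ n : ℕ, 2 ≤ n ∧ (x * y) ^ n = x ^ n * y ^ n

lemma iter (hP : CondP R) (x y : R) (K : ℕ) : ∃ N, K ≤ N ∧ 1 ≤ N ∧ (x * y) ^ N = x ^ N * y ^ N := by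
  induction K with
  | zero =>
    obtain ⟨n, hn, h⟩ := hP x y
    exact ⟨n, Nat.zero_le _, by omega, h⟩
  | succ K ih =>
    obtain ⟨N, h1, h2, h3⟩ := ih
    obtain ⟨n, hn, h4⟩ := hP (x ^ N) (y ^ N)
    refine ⟨N * n, ?_, ?_, ?_⟩
    · nlinarith
    · nlinarith
    · rw [pow_mul, h3, h4, ← pow_mul, ← pow_mul]

lemma nil_mul_left (hP : CondP R) {a : R} (ha : IsNilpotent a) (r : R) : IsNilpotent (r * a) := by
  obtain ⟨k, hk⟩ := ha
  obtain ⟨N, h1, -, h3⟩ := iter hP r a k
  exact ⟨N, by rw [h3, pow_eq_zero_of_le h1 hk, mul_zero]⟩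

lemma nil_mul_right (hP : CondP R) {a : R} (ha : IsNilpotent a) (r : R) : IsNilpotent (a * r) := by
  obtain ⟨k, hk⟩ := ha
  obtain ⟨N, h1, -, h3⟩ := iter hP a r k
  exact ⟨N, by rw [h3, pow_eq_zero_of_le h1 hk, zero_mul]⟩

/-- An element one of whose powers is an integral combination of smaller powers is integral. -/
lemma integral_of_mem_span {x : R} {N : ℕ}
    (h : x ^ N ∈ Submodule.span ℤ ((fun i : ℕ => x ^ i) '' Set.Iio N)) : IsIntegral ℤ x := by
  have h1 : ∀ z ∈ Submodule.span ℤ ((fun i : ℕ => x ^ i) '' Set.Iio N),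
      ∃ q : ℤ[X], q.degree < N ∧ aeval x q = z := by
    intro z hz
    induction hz using Submodule.span_induction with
    | mem z hz =>
      obtain ⟨i, hi, rfl⟩ := hz
      refine ⟨X ^ i, ?_, by simp⟩
      rw [degree_X_pow]
      exact_mod_cast hi
    | zero => exact ⟨0, by simp [degree_zero], by simp⟩
    | add z w _ _ hz hw =>
      obtain ⟨q, h1, h2⟩ := hz
      obtain ⟨q', h3, h4⟩ := hw
      exact ⟨q + q', lt_of_le_of_lt (degree_add_le _ _) (max_lt h1 h3), by rw [map_add, h2, h4]⟩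
    | smul c z _ hz =>
      obtain ⟨q, h1, h2⟩ := hz
      exact ⟨c • q, lt_of_le_of_lt (degree_smul_le _ _) h1, by rw [map_smul, h2]⟩
  obtain ⟨q, hq, hx⟩ := h1 _ h
  refine ⟨X ^ N - q, monic_X_pow_sub hq, ?_⟩
  rw [← aeval_def, map_sub, map_pow, aeval_X, hx, sub_self]

/-- The product of two integral elements is integral. -/
lemma integral_mul (hP : CondP R) {u v : R} (hu : IsIntegral ℤ u) (hv : IsIntegral ℤ v) :
    IsIntegral ℤ (u * v) := by
  set W : Submodule ℤ R := Subalgebra.toSubmodule (Algebra.adjoin ℤ {u}) *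
    Subalgebra.toSubmodule (Algebra.adjoin ℤ {v}) with hW
  have hWfg : W.FG := Submodule.FG.mul hu.fg_adjoin_singleton hv.fg_adjoin_singleton
  have hN : IsNoetherian ℤ W := isNoetherian_of_fg_of_noetherian _ hWfg
  set G : Set R := {z | ∃ N : ℕ, (u * v) ^ N = u ^ N * v ^ N ∧ z = (u * v) ^ N} with hG
  have hGW : Submodule.span ℤ G ≤ W := by
    rw [Submodule.span_le]
    rintro z ⟨N, h1, rfl⟩
    rw [h1]
    refine Submodule.mul_mem_mul ?_ ?_
    · exact Subalgebra.pow_mem _ (Algebra.self_mem_adjoin_singleton ℤ u) N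
    · exact Subalgebra.pow_mem _ (Algebra.self_mem_adjoin_singleton ℤ v) N
  have hfg : (Submodule.span ℤ G).FG := by
    have h1 : (Submodule.comap W.subtype (Submodule.span ℤ G)).FG := IsNoetherian.noetherian _
    have h2 := h1.map W.subtype
    rwa [Submodule.map_comap_subtype, inf_eq_right.mpr hGW] at h2
  obtain ⟨T, hT, hTs⟩ := (Submodule.fg_span_iff_fg_span_finset_subset G).mp hfg
  have hT' : ∀ z ∈ T, ∃ N : ℕ, z = (u * v) ^ N := by
    intro z hz
    obtain ⟨N, -, h⟩ := hT hz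
    exact ⟨N, h⟩
  choose! g hg using hT'
  obtain ⟨N, h1, -, h3⟩ := iter hP u v (T.sup g + 1)
  have h4 : (u * v) ^ N ∈ Submodule.span ℤ (T : Set R) := by
    rw [← hTs]
    exact Submodule.subset_span ⟨N, h3, rfl⟩
  refine integral_of_mem_span (N := N) (Submodule.span_mono ?_ h4)
  intro z hz
  refine ⟨g z, ?_, (hg z hz).symm⟩
  have : g z ≤ T.sup g := Finset.le_sup hz
  exact Set.mem_Iio.mpr (by omega)

lemma integral_one_add {a : R} (ha : IsNilpotent a) : IsIntegral ℤ (1 + a) := by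
  obtain ⟨k, hk⟩ := ha
  refine ⟨(X - C 1) ^ k, (monic_X_sub_C 1).pow k, ?_⟩
  rw [← aeval_def, map_pow, map_sub, aeval_X, aeval_C, map_one, add_sub_cancel_left, hk]

lemma integral_sub_one {x : R} (hx : IsIntegral ℤ x) : IsIntegral ℤ (x - 1) := by
  obtain ⟨f, hf, h⟩ := hx
  refine ⟨f.comp (X + C 1), hf.comp_X_add_C 1, ?_⟩
  rw [← aeval_def, aeval_comp, map_add, aeval_X, aeval_C, map_one, sub_add_cancel]
  exact h

/-- For a nilpotent `z` and an integer `n` some `w (n + z)` is a power of `n`. -/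
lemma almost_inv {z : R} (hz : IsNilpotent z) (n : ℤ) : ∃ (w : R) (e : ℕ), w * (n + z) = (n : R) ^ e := by
  obtain ⟨k, hk⟩ := hz
  have hc : Commute (n : R) (-z) := (Int.cast_commute n _)
  have h := hc.geom_sum₂_mul k
  refine ⟨∑ i ∈ Finset.range k, (n : R) ^ i * (-z) ^ (k - 1 - i), k, ?_⟩
  rw [← sub_neg_eq_add, h, neg_pow, hk, mul_zero, sub_zero]

/-- The same for `z = y₁ a + y₂ b` with nilpotent `a, b`. -/
lemma almost_inv₂ (hP : CondP R) {a b : R} (ha : IsNilpotent a) (hb : IsNilpotent b) (y₁ y₂ : R)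
    (n : ℤ) : ∃ (w : R) (e : ℕ), w * (n + (y₁ * a + y₂ * b)) = (n : R) ^ e := by
  obtain ⟨w, e, h1⟩ := almost_inv (nil_mul_left hP ha y₁) n
  obtain ⟨w', e', h2⟩ := almost_inv (nil_mul_left hP hb (w * y₂)) (n ^ e)
  refine ⟨w' * w, e * e', ?_⟩
  have h3 : w * (n + (y₁ * a + y₂ * b)) = ((n ^ e : ℤ) : R) + w * y₂ * b := by
    rw [← add_assoc, mul_add, h1]
    push_cast
    rw [mul_assoc]
  rw [mul_assoc, h3, h2]
  push_cast
  rw [pow_mul]

/-- Splitting off the first `m` coefficients. -/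
lemma split (c : R) (f : ℤ[X]) (m : ℕ) : ∃ g : ℤ[X], aeval c f =
    ∑ i ∈ Finset.range m, (f.coeff i) • c ^ i + (f.coeff m + aeval c g * c) * c ^ m := by
  have key : ∀ m : ℕ, ∃ g : ℤ[X], (∀ j, g.coeff j = f.coeff (m + j)) ∧ aeval c f =
      ∑ i ∈ Finset.range m, (f.coeff i) • c ^ i + aeval c g * c ^ m := by
    intro m
    induction m with
    | zero => exact ⟨f, fun j => by rw [zero_add], by simp⟩
    | succ m ih =>
      obtain ⟨g, h1, h2⟩ := ih
      refine ⟨g.divX, fun j => ?_, ?_⟩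
      · rw [coeff_divX, h1]; congr 1; ring
      · have h3 : aeval c g = aeval c g.divX * c + (f.coeff m : R) := by
          conv_lhs => rw [← divX_mul_X_add g]
          rw [map_add, map_mul, aeval_X, aeval_C, h1, add_zero]
          simp
        rw [h2, h3, Finset.sum_range_succ, add_mul, mul_assoc, ← pow_succ', zsmul_eq_mul]
        abel
  obtain ⟨g, h1, h2⟩ := key m
  refine ⟨g.divX, ?_⟩
  have h3 : aeval c g = aeval c g.divX * c + (f.coeff m : R) := by
    conv_lhs => rw [← divX_mul_X_add g]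
    rw [map_add, map_mul, aeval_X, aeval_C, h1, add_zero]
    simp
  rw [h2, h3, add_comm (aeval c g.divX * c)]

/-- An integral element of the left ideal `R a + R b`, `a` and `b` nilpotent, is nilpotent. -/
lemma nil_of_integral (hP : CondP R) {a b : R} (ha : IsNilpotent a) (hb : IsNilpotent b)
    {y₁ y₂ c : R} (hc : c = y₁ * a + y₂ * b) (hi : IsIntegral ℤ c) : IsNilpotent c := by
  obtain ⟨f, hf, hfc⟩ := hi
  rw [← aeval_def] at hfc
  have inv : ∀ (g : ℤ[X]) (n : ℤ), ∃ (w : R) (e : ℕ), w * (n + aeval c g * c) = (n : R) ^ e := by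
    intro g n
    obtain ⟨w, e, h⟩ := almost_inv₂ hP ha hb (aeval c g * y₁) (aeval c g * y₂) n
    refine ⟨w, e, ?_⟩
    rw [← h]
    congr 2
    conv_lhs => rw [hc]
    rw [mul_add, mul_assoc, mul_assoc]
    rw [← hc]
  -- (i) some nonzero integer kills a power of `c`
  obtain ⟨n, hn, M, hM⟩ : ∃ n : ℕ, n ≠ 0 ∧ ∃ M : ℕ, (n : R) * c ^ M = 0 := by
    have hex : ∃ m, f.coeff m ≠ 0 := ⟨f.natDegree, by rw [hf.coeff_natDegree]; exact one_ne_zero⟩
    classical
    obtain ⟨g, hg⟩ := split c f (Nat.find hex)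
    have h1 : ∑ i ∈ Finset.range (Nat.find hex), (f.coeff i) • c ^ i = 0 := by
      apply Finset.sum_eq_zero
      intro i hi
      have := Nat.find_min hex (Finset.mem_range.mp hi)
      push Not at this
      rw [this, zero_smul]
    rw [hfc, h1, zero_add] at hg
    obtain ⟨w, e, hw⟩ := inv g (f.coeff (Nat.find hex))
    refine ⟨((f.coeff (Nat.find hex)) ^ e).natAbs, ?_, Nat.find hex, ?_⟩
    · rw [Int.natAbs_ne_zero]
      exact pow_ne_zero _ (Nat.find_spec hex)
    · have h2 : ((f.coeff (Nat.find hex) : R)) ^ e * c ^ (Nat.find hex) = 0 := by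
        rw [← hw, mul_assoc, ← hg, mul_zero]
      have h3 : (((f.coeff (Nat.find hex)) ^ e : ℤ) : R) * c ^ (Nat.find hex) = 0 := by
        push_cast; exact h2
      rcases Int.natAbs_eq ((f.coeff (Nat.find hex)) ^ e) with h4 | h4
      · rw [h4, Int.cast_natCast] at h3
        exact h3
      · rw [h4, Int.cast_neg, neg_mul, neg_eq_zero, Int.cast_natCast] at h3
        exact h3
  -- (ii) some power of `c` is divisible by `n`
  have hprime : ∀ q : ℕ, q.Prime → ∃ (D : ℕ) (r : R), c ^ D = (q : R) * r := by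
    intro q hq
    have hex : ∃ m, ¬ (q : ℤ) ∣ f.coeff m := ⟨f.natDegree, by
      rw [hf.coeff_natDegree]
      intro h
      have h1 : q ∣ 1 := by exact_mod_cast h
      exact hq.one_lt.ne' (Nat.dvd_one.mp h1)⟩
    classical
    obtain ⟨g, hg⟩ := split c f (Nat.find hex)
    obtain ⟨s, hs⟩ : ∃ s : R, ∑ i ∈ Finset.range (Nat.find hex), (f.coeff i) • c ^ i = (q : R) * s := by
      refine ⟨∑ i ∈ Finset.range (Nat.find hex), (f.coeff i / (q : ℤ)) • c ^ i, ?_⟩
      rw [Finset.mul_sum]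
      apply Finset.sum_congr rfl
      intro i hi
      have h1 := Nat.find_min hex (Finset.mem_range.mp hi)
      push Not at h1
      obtain ⟨t, ht⟩ := h1
      have hq0 : (q : ℤ) ≠ 0 := by exact_mod_cast hq.ne_zero
      rw [ht, Int.mul_ediv_cancel_left _ hq0, zsmul_eq_mul, zsmul_eq_mul]
      push_cast
      rw [mul_assoc]
    rw [hfc, hs] at hg
    set m := Nat.find hex with hm
    obtain ⟨w, e, hw⟩ := inv g (f.coeff m)
    have h2 : ((f.coeff m : R)) ^ e * c ^ m = (q : R) * (-(w * s)) := by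
      have h3 : (f.coeff m + aeval c g * c) * c ^ m = -((q : R) * s) :=
        eq_neg_of_add_eq_zero_right hg.symm
      rw [← hw, mul_assoc, h3, mul_neg, ← mul_assoc, ← (Nat.cast_commute q w).eq, mul_assoc,
        mul_neg]
    have hcop : IsCoprime ((f.coeff m) ^ e) (q : ℤ) := by
      apply IsCoprime.pow_left
      have hqp : Prime (q : ℤ) := Nat.prime_iff_prime_int.mp hq
      exact ((hqp.coprime_iff_not_dvd).mpr (Nat.find_spec hex)).symm
    obtain ⟨x, y, hxy⟩ := hcop
    refine ⟨m, (x : R) * (-(w * s)) + (y : R) * c ^ m, ?_⟩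
    have h4 : (1 : R) = (x : R) * (f.coeff m : R) ^ e + (y : R) * (q : R) := by
      have := congrArg (Int.cast : ℤ → R) hxy
      push_cast at this
      exact this.symm
    calc c ^ m = 1 * c ^ m := (one_mul _).symm
      _ = (x : R) * ((f.coeff m : R) ^ e * c ^ m) + (y : R) * (q : R) * c ^ m := by
          rw [h4, add_mul, mul_assoc]
      _ = (q : R) * ((x : R) * (-(w * s)) + (y : R) * c ^ m) := by
          rw [h2, mul_add, ← mul_assoc, ← mul_assoc, ← mul_assoc,
            (Nat.cast_commute q (x : R)).eq, (Nat.cast_commute q (y : R)).eq]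
  have hall : ∀ n : ℕ, n ≠ 0 → ∃ (D : ℕ) (r : R), c ^ D = (n : R) * r := by
    intro n
    induction n using Nat.recOnMul with
    | zero => intro h; exact absurd rfl h
    | one => intro _; exact ⟨0, 1, by simp⟩
    | prime q hq => intro _; exact hprime q hq
    | mul x y hx hy =>
      intro hxy
      obtain ⟨D, r, h1⟩ := hx (left_ne_zero_of_mul hxy)
      obtain ⟨E, s, h2⟩ := hy (right_ne_zero_of_mul hxy)
      refine ⟨D + E, r * s, ?_⟩
      rw [pow_add, h1, h2, Nat.cast_mul, mul_assoc, ← mul_assoc r, ← (Nat.cast_commute y r).eq,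
        mul_assoc, mul_assoc]
  obtain ⟨D, r, hD⟩ := hall n hn
  refine ⟨M + D, ?_⟩
  rw [pow_add, hD, ← mul_assoc, ← (Nat.cast_commute n (c ^ M)).eq, hM, zero_mul]

/-- The sum of two nilpotent elements is nilpotent. -/
lemma nil_add (hP : CondP R) {a b : R} (ha : IsNilpotent a) (hb : IsNilpotent b) :
    IsNilpotent (a + b) := by
  obtain ⟨w, hw⟩ := ha.isUnit_one_add.exists_right_inv
  have hb' : IsNilpotent (w * b) := nil_mul_left hP hb w
  have e1 : a + b = 1 * a + (1 + a) * (w * b) := by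
    rw [one_mul, ← mul_assoc, hw, one_mul]
  have e2 : a + b = (1 + a) * (1 + w * b) - 1 := by
    rw [mul_add, mul_one, ← mul_assoc, hw, one_mul]
    abel
  refine nil_of_integral hP ha hb' e1 ?_
  rw [e2]
  exact integral_sub_one (integral_mul hP (integral_one_add ha) (integral_one_add hb'))

/-- The ideal of nilpotent elements. -/
def nilIdeal (hP : CondP R) : TwoSidedIdeal R :=
  TwoSidedIdeal.mk' {x | IsNilpotent x} IsNilpotent.zero (fun hx hy => nil_add hP hx hy)
    (fun hx => hx.neg) (fun hy => nil_mul_left hP hy _) (fun hx => nil_mul_right hP hx _)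

lemma mem_nilIdeal (hP : CondP R) (x : R) : x ∈ nilIdeal hP ↔ IsNilpotent x := by
  unfold nilIdeal
  rw [TwoSidedIdeal.mem_mk']
  rfl

end Pool.Agent.TH742.PR
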